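import Pool.Agent.R995.CE9

set_option autoImplicit false

/-! # The squared distance between a circle and an ellipse with a common focus

The squared distance between the points of two confocal ellipses in 3-space, exactly one of
which is a circle, has at most ten stationary points. -/

namespace Pool.Agent.Results.MP_4e5648_mp.CircleEllipseTen

/-- The point with parameter `s` (eccentric anomaly) of the ellipse in 3-space which has a focus
at `F`, semi-major axis `a`, eccentricity `e`, major axis along the unit vector `u` (pointing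
from the focus `F` to the centre) and minor axis along the unit vector `w`. For `e = 0` it is the
circle with centre `F` and radius `a`. -/
noncomputable def ellipsePoint (F u w : EuclideanSpace ℝ (Fin 3)) (a e s : ℝ) :
    EuclideanSpace ℝ (Fin 3) :=
  F + (a * (e + Real.cos s)) • u + (a * Real.sqrt (1 - e ^ 2) * Real.sin s) • w

/-- The stationary points of the squared distance on the product of the curves parametrized by
`P` and `Q`: the pairs of points `(P s, Q t)` such that both partial derivatives of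
`‖P s - Q t‖ ^ 2` vanish. -/
def stationaryPoints (P Q : ℝ → EuclideanSpace ℝ (Fin 3)) :
    Set (EuclideanSpace ℝ (Fin 3) × EuclideanSpace ℝ (Fin 3)) :=
  {x | ∃ s t : ℝ, x = (P s, Q t) ∧ deriv (fun s' : ℝ => ‖P s' - Q t‖ ^ 2) s = 0 ∧
    deriv (fun t' : ℝ => ‖P s - Q t'‖ ^ 2) t = 0}

lemma hasDerivAt_ellipsePoint (F u w : EuclideanSpace ℝ (Fin 3)) (a e s : ℝ) :
    HasDerivAt (fun s' => ellipsePoint F u w a e s')
      ((-(a * Real.sin s)) • u + (a * Real.sqrt (1 - e ^ 2) * Real.cos s) • w) s := by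
  unfold ellipsePoint
  have h1 : HasDerivAt (fun s' : ℝ => a * (e + Real.cos s')) (-(a * Real.sin s)) s :=
    (((Real.hasDerivAt_cos s).const_add e).const_mul a).congr_deriv (by ring)
  have h2 : HasDerivAt (fun s' : ℝ => a * Real.sqrt (1 - e ^ 2) * Real.sin s')
      (a * Real.sqrt (1 - e ^ 2) * Real.cos s) s :=
    (Real.hasDerivAt_sin s).const_mul (a * Real.sqrt (1 - e ^ 2))
  have h3 := ((h1.smul_const u).const_add F).fun_add (h2.smul_const w)
  exact h3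

lemma stationary_swap (P Q : ℝ → EuclideanSpace ℝ (Fin 3)) :
    (stationaryPoints P Q).encard ≤ (stationaryPoints Q P).encard := by
  apply Set.encard_le_encard_of_injOn (f := Prod.swap)
  · rintro x ⟨s, t, hx, h1, h2⟩
    refine ⟨t, s, by rw [hx]; rfl, ?_, ?_⟩
    · rw [← h2]; congr 1; ext t'; rw [norm_sub_rev]
    · rw [← h1]; congr 1; ext s'; rw [norm_sub_rev]
  · exact Prod.swap_injective.injOn

lemma ellipse_circle (F u₁ w₁ u₂ w₂ : EuclideanSpace ℝ (Fin 3)) (a₁ e₁ a₂ : ℝ)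
    (ha₁ : 0 < a₁) (ha₂ : 0 < a₂) (he₁ : 0 < e₁) (he₁' : e₁ < 1)
    (hu₁ : ‖u₁‖ = 1) (hw₁ : ‖w₁‖ = 1) (h₁ : inner ℝ u₁ w₁ = 0)
    (hu₂ : ‖u₂‖ = 1) (hw₂ : ‖w₂‖ = 1) (h₂ : inner ℝ u₂ w₂ = 0) :
    (stationaryPoints (fun s => ellipsePoint F u₁ w₁ a₁ e₁ s)
      (fun t => ellipsePoint F u₂ w₂ a₂ 0 t)).encard ≤ 10 := by
  refine le_trans (Set.encard_le_encard ?_)
    (Pool.Agent.R995.CE.main_geo (F := F) ha₁ he₁ he₁' ha₂ hu₁ hw₁ h₁ hu₂ hw₂ h₂)
  rintro x ⟨s, t, hx, h3, h4⟩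
  have hQ : ∀ t, ellipsePoint F u₂ w₂ a₂ 0 t
      = F + (a₂ * Real.cos t) • u₂ + (a₂ * Real.sin t) • w₂ := by
    intro t; unfold ellipsePoint; simp
  have hP : ∀ s, ellipsePoint F u₁ w₁ a₁ e₁ s = F + (a₁ * (e₁ + Real.cos s)) • u₁
      + (a₁ * Real.sqrt (1 - e₁ ^ 2) * Real.sin s) • w₁ := fun s => rfl
  have hd1 := ((hasDerivAt_ellipsePoint F u₁ w₁ a₁ e₁ s).sub_const
    (ellipsePoint F u₂ w₂ a₂ 0 t)).norm_sq.deriv
  have hd2 := ((hasDerivAt_ellipsePoint F u₂ w₂ a₂ 0 t).const_sub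
    (ellipsePoint F u₁ w₁ a₁ e₁ s)).norm_sq.deriv
  have e1 := hd1.symm.trans h3
  have e2 := hd2.symm.trans h4
  refine ⟨s, t, ?_, ?_, ?_⟩
  · rw [hx]; simp only [hQ, hP]
  · rw [← hP, ← hQ]
    linarith
  · have hQ' : (-(a₂ * Real.sin t)) • u₂ + (a₂ * Real.sqrt (1 - 0 ^ 2) * Real.cos t) • w₂
        = (-(a₂ * Real.sin t)) • u₂ + (a₂ * Real.cos t) • w₂ := by simp
    rw [hQ', inner_neg_right] at e2
    rw [← hP, ← hQ]
    linarith

end Pool.Agent.Results.MP_4e5648_mp.CircleEllipseTen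

open Pool.Agent.Results.MP_4e5648_mp.CircleEllipseTen in
/-- Two ellipses in 3-space with a common focus `F`, exactly one of which is a circle: the squared
distance has at most ten stationary points (in particular finitely many). -/
theorem Pool.Agent.Results.MP_4e5648_mp.CircleEllipseTen.result
    (F u₁ w₁ u₂ w₂ : EuclideanSpace ℝ (Fin 3)) (a₁ e₁ a₂ e₂ : ℝ)
    (ha₁ : 0 < a₁) (ha₂ : 0 < a₂)
    (he₁ : 0 ≤ e₁) (he₁' : e₁ < 1) (he₂ : 0 ≤ e₂) (he₂' : e₂ < 1)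
    (hone : (e₁ ≠ 0 ∧ e₂ = 0) ∨ (e₁ = 0 ∧ e₂ ≠ 0))
    (hu₁ : ‖u₁‖ = 1) (hw₁ : ‖w₁‖ = 1) (h₁ : inner ℝ u₁ w₁ = 0)
    (hu₂ : ‖u₂‖ = 1) (hw₂ : ‖w₂‖ = 1) (h₂ : inner ℝ u₂ w₂ = 0) :
    (stationaryPoints (fun s => ellipsePoint F u₁ w₁ a₁ e₁ s)
      (fun t => ellipsePoint F u₂ w₂ a₂ e₂ t)).encard ≤ 10 := by
  rcases hone with ⟨hne, h0⟩ | ⟨h0, hne⟩
  · subst h0
    exact ellipse_circle F u₁ w₁ u₂ w₂ a₁ e₁ a₂ ha₁ ha₂ (lt_of_le_of_ne he₁ (Ne.symm hne)) he₁'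
      hu₁ hw₁ h₁ hu₂ hw₂ h₂
  · subst h0
    exact (stationary_swap _ _).trans
      (ellipse_circle F u₂ w₂ u₁ w₁ a₂ e₂ a₁ ha₂ ha₁ (lt_of_le_of_ne he₂ (Ne.symm hne)) he₂'
      hu₂ hw₂ h₂ hu₁ hw₁ h₁)
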